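import Mathlib

/-!
# Certificate functions for the lower bound of `dim_H ((C × C) ∩ circle)`

All numbers are in units of `3 ^ (-33)`.
-/

set_option autoImplicit false

namespace Pool.Agent.V8H5.CD

/-- first coordinate of the base rectangle, times `3 ^ 33` -/
def Ph : ℕ := 1424289698810664
/-- one third of the second coordinate of the base rectangle, times `3 ^ 33` -/
def Qh : ℕ := 1791168248083866
/-- left end of the window -/
def Ja : ℕ := 1226266744858189
/-- right end of the window -/
def Jb : ℕ := 1989191202036340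

/-- the sum of the values of the four children of the interval `[l, r]` -/
noncomputable def sumc (f : ℕ → ℕ → ℕ) (l r : ℕ) : ℕ :=
  Nat.add
    (Nat.add
    (Bool.rec (motive := fun _ => ℕ) 0 (f (Nat.mul 3 l) (Nat.mul 3 r)) (Nat.ble r 1071819315631510))
    (Bool.rec (motive := fun _ => ℕ) 0 (Bool.rec (motive := fun _ => ℕ) 0
      (f (Nat.sub (Nat.mul 3 l) 2848579397621336) (Nat.sub (Nat.mul 3 r) 2848579397621328))
      (Nat.ble r 2021345781505286)) (Nat.ble 949526465873779 l)))
    (Nat.add
    (Bool.rec (motive := fun _ => ℕ) 0 (Bool.rec (motive := fun _ => ℕ) 0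
      (f (Nat.sub (Nat.mul 3 l) 3582336496167740) (Nat.sub (Nat.mul 3 r) 3582336496167732))
      (Nat.ble r 2265931481020754)) (Nat.ble 1194112165389247 l))
    (Bool.rec (motive := fun _ => ℕ) 0 (Bool.rec (motive := fun _ => ℕ) 0
      (f (Nat.sub (Nat.mul 3 l) 6430915893789076) (Nat.sub (Nat.mul 3 r) 6430915893789060))
      (Nat.ble r 3215457946894530)) (Nat.ble 2143638631263026 l)))

/-- the value of a node: the larger one of the stopping value `w` (allowed if `[l, r]` lies in the
window) and `s` -/
noncomputable def sel (w l r s : ℕ) : ℕ :=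
  Bool.rec (motive := fun _ => ℕ) s (Bool.rec (motive := fun _ => ℕ) s
    (Bool.rec (motive := fun _ => ℕ) s w (Nat.ble s w)) (Nat.ble r 1989191202036340)) (Nat.ble 1226266744858189 l)

/-- the value of the interval `[l, r]`; the list contains the stopping values -/
noncomputable def ex (ws : List ℕ) : ℕ → ℕ → ℕ :=
  List.rec (motive := fun _ => ℕ → ℕ → ℕ) (fun _ _ => 0)
    (fun w _ ih l r => (fun f l r => (fun s : ℕ => Bool.rec (motive := fun _ => ℕ) s
      (Bool.rec (motive := fun _ => ℕ) s (Bool.rec (motive := fun _ => ℕ) s w (Nat.ble s w))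
        (Nat.ble r 1989191202036340)) (Nat.ble 1226266744858189 l))
  (Nat.add
    (Nat.add
    (Bool.rec (motive := fun _ => ℕ) 0 (f (Nat.mul 3 l) (Nat.mul 3 r)) (Nat.ble r 1071819315631510))
    (Bool.rec (motive := fun _ => ℕ) 0 (Bool.rec (motive := fun _ => ℕ) 0
      (f (Nat.sub (Nat.mul 3 l) 2848579397621336) (Nat.sub (Nat.mul 3 r) 2848579397621328))
      (Nat.ble r 2021345781505286)) (Nat.ble 949526465873779 l)))
    (Nat.add
    (Bool.rec (motive := fun _ => ℕ) 0 (Bool.rec (motive := fun _ => ℕ) 0
      (f (Nat.sub (Nat.mul 3 l) 3582336496167740) (Nat.sub (Nat.mul 3 r) 3582336496167732))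
      (Nat.ble r 2265931481020754)) (Nat.ble 1194112165389247 l))
    (Bool.rec (motive := fun _ => ℕ) 0 (Bool.rec (motive := fun _ => ℕ) 0
      (f (Nat.sub (Nat.mul 3 l) 6430915893789076) (Nat.sub (Nat.mul 3 r) 6430915893789060))
      (Nat.ble r 3215457946894530)) (Nat.ble 2143638631263026 l))))) ih l r) ws

/-- stopping values at the depths `1, 2, ...` -/
def W : List ℕ := [871685, 759835, 662337, 577350, 503267, 438691, 382400, 333333, 290561, 253278, 220779, 192450, 167755, 146230, 127466, 111111, 96853, 84426, 73593, 64150, 55918, 48743, 42488, 37037, 32284, 28142, 24531, 21383, 18639, 16247, 14162, 12345, 10761, 9380, 8177, 7127]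

/-- the check of a list of consecutive intervals, given by their right ends -/
noncomputable def chk (L : List ℕ) : ℕ → Bool :=
  List.rec (motive := fun _ => ℕ → Bool) (fun _ => true)
    (fun r _ ih l => Bool.rec (motive := fun _ => Bool) false (ih r)
      (Nat.ble 1000000 (sumc (ex W) l r))) L

end Pool.Agent.V8H5.CD
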