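import Pool.Agent.V8H5.CD.Par

/-!
From the parametrisations to the Hausdorff dimension.
-/

set_option autoImplicit false

namespace Pool.Agent.V8H5.CD

open Set Filter Topology

lemma circle_close {σ : St} (hσ : Jst σ) {z : ℝ × ℝ} (hz : z ∈ K σ) :
    |1 - z.1 ^ 2 - z.2 ^ 2| ≤ 3 * σ.h := by
  obtain ⟨⟨h0, h1, h2, h3, h4⟩, h5, h6⟩ := hσ
  obtain ⟨z1, z2⟩ := hz
  have hU := U_pos
  have hPU : ((Ph : ℝ) + 3) ≤ U := by unfold Ph U; norm_num
  have hQU : (3 * (Qh : ℝ) + 3) ≤ U := by unfold Qh U; norm_num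
  have hP0 : (0 : ℝ) ≤ Ph := Nat.cast_nonneg _
  have hQ0 : (0 : ℝ) ≤ Qh := Nat.cast_nonneg _
  have hp0 : 0 ≤ σ.p := nonneg_of_mul_nonneg_left (hP0.trans h1) hU
  have hq0 : 0 ≤ σ.q := nonneg_of_mul_nonneg_left ((by linarith : (0:ℝ) ≤ 3 * Qh).trans h3) hU
  have hp1 : σ.p + σ.h ≤ 1 := by
    have := h2.trans hPU
    exact le_of_mul_le_mul_right (by rwa [one_mul]) hU
  have hq1 : σ.q + σ.h / 3 ≤ 1 := by
    have := h4.trans hQU
    exact le_of_mul_le_mul_right (by rwa [one_mul]) hU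
  have ht0 : 0 ≤ tval σ.p σ.q σ.h := by
    refine nonneg_of_mul_nonneg_left (le_trans ?_ h5) hU
    exact Nat.cast_nonneg _
  have ht1 : tval σ.p σ.q σ.h ≤ 1 := by
    refine le_of_mul_le_mul_right (h6.trans ?_) hU
    unfold Jb U; norm_num
  have e : 1 - σ.p ^ 2 - σ.q ^ 2 = 2 * σ.h * tval σ.p σ.q σ.h := by
    unfold tval
    rw [mul_div_cancel₀ _ (mul_ne_zero two_ne_zero h0.ne')]
  obtain ⟨a1, a2⟩ := cantorSet_subset_unitInterval z1
  obtain ⟨b1, b2⟩ := cantorSet_subset_unitInterval z2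
  rw [le_div_iff₀ h0] at a1
  rw [div_le_iff₀ h0] at a2
  rw [le_div_iff₀ (by positivity)] at b1
  rw [div_le_iff₀ (by positivity)] at b2
  have c1 : 0 ≤ z.1 ^ 2 - σ.p ^ 2 := by nlinarith
  have c2 : z.1 ^ 2 - σ.p ^ 2 ≤ 2 * σ.h := by nlinarith
  have c3 : 0 ≤ z.2 ^ 2 - σ.q ^ 2 := by nlinarith
  have c4 : z.2 ^ 2 - σ.q ^ 2 ≤ 2 * σ.h / 3 := by nlinarith
  have c5 : 0 ≤ 2 * σ.h * tval σ.p σ.q σ.h := by positivity
  have c6 : 2 * σ.h * tval σ.p σ.q σ.h ≤ 2 * σ.h := by nlinarith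
  rw [abs_le]
  constructor <;> linarith

theorem exists_g {σ₀ : St} (h0 : Jst σ₀) (hall : ∀ σ, Jst σ → HasPar σ.h 1 (K σ)) :
    ∃ g : ℝ → ℝ × ℝ, (∀ u, 0 ≤ u → u < 1 → g u ∈ K σ₀ ∧ (g u).1 ^ 2 + (g u).2 ^ 2 = 1) ∧
      ∀ u v, 0 ≤ u → u < 1 → 0 ≤ v → v < 1 →
        |u - v| ≤ (dist (g u) (g v) / (σ₀.h / 3 ^ 40)) ^ (1 / 8 : ℝ) := by
  classical
  choose F hF using hall
  let G : St × ℝ → St × ℝ := fun x => if h : Jst x.1 then F x.1 h x.2 else x
  have hG : ∀ (σ : St) (a : ℝ) (hσ : Jst σ), G (σ, a) = F σ hσ a := fun σ a hσ => dif_pos hσ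
  obtain ⟨s, hs0, hs⟩ : ∃ s : ℝ → ℕ → St × ℝ, (∀ u, s u 0 = (σ₀, u)) ∧
      ∀ u n, s u (n + 1) = G (s u n) :=
    ⟨fun u n => G^[n] (σ₀, u), fun u => rfl, fun u n => Function.iterate_succ_apply' _ _ _⟩
  have hh0 : 0 < σ₀.h := h0.1.1
  have inv : ∀ u, 0 ≤ u → u < 1 → ∀ n, Jst (s u n).1 ∧ 0 ≤ (s u n).2 ∧ (s u n).2 < 1 ∧
      (s u n).1.h ≤ σ₀.h / 3 ^ n := by
    intro u hu hu' n
    induction n with
    | zero => rw [hs0]; exact ⟨h0, hu, hu', by simp⟩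
    | succ n ih =>
      obtain ⟨i1, i2, i3, i4⟩ := ih
      rw [hs, hG _ _ i1]
      obtain ⟨j1, j2, j3, j4, j5⟩ := (hF _ i1).1 _ i2 i3
      refine ⟨j1, j4, j5, j3.trans ?_⟩
      calc (s u n).1.h / 3 ≤ (σ₀.h / 3 ^ n) / 3 := by linarith
        _ = σ₀.h / 3 ^ (n + 1) := by rw [pow_succ]; field_simp
  have nest : ∀ u, 0 ≤ u → u < 1 → ∀ n, K (s u (n + 1)).1 ⊆ K (s u n).1 := by
    intro u hu hu' n
    obtain ⟨i1, i2, i3, i4⟩ := inv u hu hu' n
    rw [hs, hG _ _ i1]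
    exact ((hF _ i1).1 _ i2 i3).2.1
  have hz : ∀ u, ∃ z : ℝ × ℝ, 0 ≤ u → u < 1 → ∀ n, z ∈ K (s u n).1 := by
    intro u
    by_cases hu : 0 ≤ u ∧ u < 1
    · have hc : ∀ n, IsCompact (K (s u n).1) := fun n =>
        KK_compact (inv u hu.1 hu.2 n).1.1.1
      obtain ⟨z, hz⟩ := IsCompact.nonempty_iInter_of_sequence_nonempty_isCompact_isClosed
        (fun n => K (s u n).1) (nest u hu.1 hu.2) (fun n => ⟨_, corner_mem⟩) (hc 0)
        (fun n => (hc n).isClosed)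
      exact ⟨z, fun _ _ n => mem_iInter.1 hz n⟩
    · exact ⟨0, fun h1 h2 => absurd ⟨h1, h2⟩ hu⟩
  choose g hg using hz
  refine ⟨g, fun u hu hu' => ⟨?_, ?_⟩, fun u v hu hu' hv hv' => ?_⟩
  · have := hg u hu hu' 0
    rwa [hs0] at this
  · have hb : ∀ n : ℕ, |1 - (g u).1 ^ 2 - (g u).2 ^ 2| ≤ 3 * σ₀.h * (1 / 3) ^ n := by
      intro n
      obtain ⟨i1, i2, i3, i4⟩ := inv u hu hu' n
      have h1 := circle_close i1 (hg u hu hu' n)
      refine h1.trans ?_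
      calc 3 * (s u n).1.h ≤ 3 * (σ₀.h / 3 ^ n) := by linarith
        _ = 3 * σ₀.h * (1 / 3) ^ n := by rw [one_div, inv_pow]; ring
    have hlim : Tendsto (fun n : ℕ => (3 * σ₀.h) * (1 / 3 : ℝ) ^ n) atTop
        (𝓝 ((3 * σ₀.h) * 0)) :=
      (tendsto_pow_atTop_nhds_zero_of_lt_one (by norm_num) (by norm_num)).const_mul _
    rw [mul_zero] at hlim
    have h2 := ge_of_tendsto' hlim hb
    have := abs_nonpos_iff.1 h2
    linarith
  · by_contra hcon
    push Not at hcon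
    have hc : 0 < σ₀.h / 3 ^ 40 := by positivity
    have key : ∀ n, (s u n).1 = (s v n).1 ∧
        |u - v| ≤ ((s u n).1.h / σ₀.h) ^ (1 / 8 : ℝ) * |(s u n).2 - (s v n).2| := by
      intro n
      induction n with
      | zero =>
        rw [hs0, hs0]
        refine ⟨rfl, ?_⟩
        show |u - v| ≤ (σ₀.h / σ₀.h) ^ (1 / 8 : ℝ) * |u - v|
        rw [div_self hh0.ne', Real.one_rpow, one_mul]
      | succ n ih =>
        obtain ⟨e1, e2⟩ := ih
        obtain ⟨i1, i2, i3, i4⟩ := inv u hu hu' n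
        obtain ⟨k1, k2, k3, k4⟩ := inv v hv hv' n
        have hgu := hg u hu hu' (n + 1)
        have hgv := hg v hv hv' (n + 1)
        have es : s v n = ((s u n).1, (s v n).2) := Prod.ext e1.symm rfl
        have hsv : s v (n + 1) = F (s u n).1 i1 (s v n).2 := by
          rw [hs, es, hG _ _ i1]
        have hsu : s u (n + 1) = F (s u n).1 i1 (s u n).2 := by
          rw [hs]; exact hG _ _ i1
        rw [hsu] at hgu
        rw [hsv] at hgv
        rw [hsu, hsv]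
        have hσ : 0 < (s u n).1.h := i1.1.1
        rcases (hF _ i1).2 (s u n).2 (s v n).2 i2 i3 k2 k3 with ⟨a1, a2⟩ | hB
        · refine ⟨a1, ?_⟩
          have hh' : 0 < (F (s u n).1 i1 (s u n).2).1.h := ((hF _ i1).1 _ i2 i3).1.1.1
          calc |u - v| ≤ ((s u n).1.h / σ₀.h) ^ (1 / 8 : ℝ) * |(s u n).2 - (s v n).2| := e2
            _ ≤ ((s u n).1.h / σ₀.h) ^ (1 / 8 : ℝ) *
                (((F (s u n).1 i1 (s u n).2).1.h / (s u n).1.h) ^ (1 / 8 : ℝ) *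
                  |(F (s u n).1 i1 (s u n).2).2 - (F (s u n).1 i1 (s v n).2).2|) :=
              mul_le_mul_of_nonneg_left a2 (by positivity)
            _ = _ := by
              rw [← mul_assoc, ← Real.mul_rpow (by positivity) (by positivity)]
              congr 2
              field_simp
        · exfalso
          have h1 := hB _ hgu _ hgv
          have h2 : (s u n).1.h / σ₀.h ≤ dist (g u) (g v) / (σ₀.h / 3 ^ 40) := by
            rw [div_le_div_iff₀ hh0 hc]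
            calc (s u n).1.h * (σ₀.h / 3 ^ 40) = (s u n).1.h / 3 ^ 40 * σ₀.h := by ring
              _ ≤ dist (g u) (g v) * σ₀.h := mul_le_mul_of_nonneg_right h1 hh0.le
          have h3 : |(s u n).2 - (s v n).2| ≤ 1 := by
            rw [abs_le]; constructor <;> linarith
          have h4 : |u - v| ≤ (dist (g u) (g v) / (σ₀.h / 3 ^ 40)) ^ (1 / 8 : ℝ) := by
            calc |u - v| ≤ ((s u n).1.h / σ₀.h) ^ (1 / 8 : ℝ) * |(s u n).2 - (s v n).2| := e2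
              _ ≤ ((s u n).1.h / σ₀.h) ^ (1 / 8 : ℝ) * 1 :=
                mul_le_mul_of_nonneg_left h3 (by positivity)
              _ ≤ _ := by
                rw [mul_one]
                exact Real.rpow_le_rpow (by positivity) h2 (by norm_num)
          exact absurd h4 (not_le.2 hcon)
    have hb : ∀ n : ℕ, |u - v| ≤ ((1 / 3 : ℝ) ^ n) ^ (1 / 8 : ℝ) := by
      intro n
      obtain ⟨i1, i2, i3, i4⟩ := inv u hu hu' n
      obtain ⟨k1, k2, k3, k4⟩ := inv v hv hv' n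
      have h3 : |(s u n).2 - (s v n).2| ≤ 1 := by
        rw [abs_le]; constructor <;> linarith
      have hσ : 0 < (s u n).1.h := i1.1.1
      calc |u - v| ≤ ((s u n).1.h / σ₀.h) ^ (1 / 8 : ℝ) * |(s u n).2 - (s v n).2| := (key n).2
        _ ≤ ((s u n).1.h / σ₀.h) ^ (1 / 8 : ℝ) * 1 :=
          mul_le_mul_of_nonneg_left h3 (by positivity)
        _ ≤ _ := by
          rw [mul_one]
          refine Real.rpow_le_rpow (by positivity) ?_ (by norm_num)
          rw [div_le_iff₀ hh0, one_div, inv_pow]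
          refine i4.trans (le_of_eq ?_)
          ring
    have hlim : Tendsto (fun n : ℕ => ((1 / 3 : ℝ) ^ n) ^ (1 / 8 : ℝ)) atTop
        (𝓝 ((0 : ℝ) ^ (1 / 8 : ℝ))) :=
      (tendsto_pow_atTop_nhds_zero_of_lt_one (by norm_num) (by norm_num)).rpow_const
        (Or.inr (by norm_num))
    rw [Real.zero_rpow (by norm_num)] at hlim
    have h2 := ge_of_tendsto' hlim hb
    have h5 : 0 ≤ (dist (g u) (g v) / (σ₀.h / 3 ^ 40)) ^ (1 / 8 : ℝ) := by positivity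
    linarith

/-- A map from `[0,1)` whose inverse is Hölder continuous of exponent `1 / 8`. -/
theorem dim_of_g {E : Set (ℝ × ℝ)} {g : ℝ → ℝ × ℝ} {c : ℝ} (hc : 0 < c)
    (h1 : ∀ u, 0 ≤ u → u < 1 → g u ∈ E)
    (h2 : ∀ u v, 0 ≤ u → u < 1 → 0 ≤ v → v < 1 →
      |u - v| ≤ (dist (g u) (g v) / c) ^ (1 / 8 : ℝ)) :
    (1 : ENNReal) / 8 ≤ dimH E ∧ InjOn g (Ico 0 1) := by
  have hinj : InjOn g (Ico 0 1) := by
    intro u hu v hv huv
    have := h2 u v hu.1 hu.2 hv.1 hv.2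
    rw [huv, dist_self, zero_div, Real.zero_rpow (by norm_num)] at this
    have := abs_nonpos_iff.1 this
    linarith
  refine ⟨?_, hinj⟩
  have hsub : g '' Ico 0 1 ⊆ E := by
    rintro _ ⟨u, hu, rfl⟩
    exact h1 u hu.1 hu.2
  refine le_trans ?_ (dimH_mono hsub)
  let f : ℝ × ℝ → ℝ := Function.invFunOn g (Ico 0 1)
  have hf : ∀ u ∈ Ico (0 : ℝ) 1, f (g u) = u := fun u hu =>
    hinj.leftInvOn_invFunOn hu
  let C : NNReal := ⟨(1 / c) ^ (1 / 8 : ℝ), by positivity⟩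
  have hhol : HolderOnWith C (1 / 8) f (g '' Ico 0 1) := by
    rintro _ ⟨u, hu, rfl⟩ _ ⟨v, hv, rfl⟩
    rw [hf u hu, hf v hv]
    have h3 := h2 u v hu.1 hu.2 hv.1 hv.2
    have h4 : (dist (g u) (g v) / c) ^ (1 / 8 : ℝ) =
        (C : ℝ) * dist (g u) (g v) ^ (1 / 8 : ℝ) := by
      show _ = (1 / c) ^ (1 / 8 : ℝ) * dist (g u) (g v) ^ (1 / 8 : ℝ)
      rw [← Real.mul_rpow (by positivity) dist_nonneg]
      congr 1
      ring
    rw [h4] at h3
    rw [edist_dist, Real.dist_eq, edist_dist]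
    refine (ENNReal.ofReal_le_ofReal h3).trans (le_of_eq ?_)
    rw [ENNReal.ofReal_mul (NNReal.coe_nonneg C), ENNReal.ofReal_coe_nnreal,
      ENNReal.ofReal_rpow_of_nonneg dist_nonneg (by positivity)]
    norm_num
  have h5 := hhol.dimH_image_le (by norm_num)
  have h6 : f '' (g '' Ico 0 1) = Ico 0 1 := by
    rw [image_image]
    ext x
    constructor
    · rintro ⟨u, hu, rfl⟩
      show f (g u) ∈ _
      rw [hf u hu]; exact hu
    · intro hx
      exact ⟨x, hx, hf x hx⟩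
  rw [h6, Real.dimH_of_nonempty_interior (by rw [interior_Ico]; exact ⟨1 / 2, by norm_num⟩)] at h5
  have h7 : ((1 / 8 : NNReal) : ENNReal) = 1 / 8 := by
    rw [ENNReal.coe_div (by norm_num)]; norm_num
  rw [h7] at h5
  have h8 : (1 : ENNReal) * (1 / 8) ≤ dimH (g '' Ico 0 1) := by
    rw [ENNReal.le_div_iff_mul_le (Or.inl (by norm_num)) (Or.inl (by norm_num))] at h5
    rw [Module.finrank_self, Nat.cast_one] at h5
    exact h5
  simpa using h8

end Pool.Agent.V8H5.CD
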