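import Pool.Agent.V8H5.CD.Main

/-!
The result in the Euclidean plane.
-/

set_option autoImplicit false

namespace Pool.Agent.V8H5.CD

open Set

/-- the part of `C × C` on the unit circle, in the Euclidean plane -/
def E' : Set (EuclideanSpace ℝ (Fin 2)) :=
  {z | z 0 ∈ cantorSet ∧ z 1 ∈ cantorSet ∧ z 0 ^ 2 + z 1 ^ 2 = 1}

/-- the two coordinates -/
noncomputable def co : EuclideanSpace ℝ (Fin 2) →L[ℝ] ℝ × ℝ :=
  (EuclideanSpace.proj 0).prod (EuclideanSpace.proj 1)

lemma co_apply (z : EuclideanSpace ℝ (Fin 2)) : co z = (z 0, z 1) := rfl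

lemma co_inj : Function.Injective co := by
  intro z w h
  rw [co_apply, co_apply, Prod.mk.injEq] at h
  ext i
  fin_cases i
  · exact h.1
  · exact h.2

lemma co_image : co '' E' = E := by
  ext x
  constructor
  · rintro ⟨z, hz, rfl⟩
    exact hz
  · intro hx
    exact ⟨!₂[x.1, x.2], by simpa [E', E] using hx, by simp [co_apply]⟩

theorem main' : (1 : ENNReal) / 8 ≤ dimH E' ∧ Cardinal.mk E' = Cardinal.continuum := by
  obtain ⟨h1, h2⟩ := main
  rw [← co_image] at h1 h2
  refine ⟨h1.trans (co.lipschitz.dimH_image_le _), ?_⟩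
  rwa [Cardinal.mk_image_eq co_inj] at h2

end Pool.Agent.V8H5.CD
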