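import Pool.Agent.V8H5.CD.Defs

/-!
Rectangles of `C × C` (`C` the middle-third Cantor set) near the unit circle.

State: a rectangle with corner `(p,q)`, width `h` and height `h / 3`;
`t = (1 - p ^ 2 - q ^ 2) / (2 h)`.
-/

set_option autoImplicit false

namespace Pool.Agent.V8H5.CD

open Set

/-- points of `C × C` scaled to the rectangle with corner `(p,q)`, width `h`, height `h / 3` -/
def KK (p q h : ℝ) : Set (ℝ × ℝ) :=
  {z | (z.1 - p) / h ∈ cantorSet ∧ (z.2 - q) / (h / 3) ∈ cantorSet}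

/-- the residual -/
noncomputable def tval (p q h : ℝ) : ℝ := (1 - p ^ 2 - q ^ 2) / (2 * h)

/-- `3 ^ 33` -/
noncomputable def U : ℝ := 3 ^ 33

lemma U_pos : 0 < U := by unfold U; positivity

/-- first coordinate of the child -/
noncomputable def cp (d : ℕ) (p h : ℝ) : ℝ := p + 2 * ((d % 2 : ℕ) : ℝ) * (h / 3)
/-- second coordinate of the child -/
noncomputable def cq (d : ℕ) (q h : ℝ) : ℝ := q + 2 * ((d / 2 : ℕ) : ℝ) * (h / 3 / 3)

lemma cantor_scale {x h p : ℝ} (hh : 0 < h) {a : ℕ} (ha : a < 2)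
    (hx : (x - (p + 2 * (a : ℝ) * (h / 3))) / (h / 3) ∈ cantorSet) : (x - p) / h ∈ cantorSet := by
  rw [cantorSet_eq_union_halves]
  interval_cases a
  · left
    refine ⟨_, hx, ?_⟩
    have := hh.ne'
    simp only [Nat.cast_zero]
    field_simp
    ring
  · right
    refine ⟨_, hx, ?_⟩
    have := hh.ne'
    simp only [Nat.cast_one]
    field_simp
    ring

lemma KK_child {p q h : ℝ} (hh : 0 < h) {d : ℕ} (hd : d < 4) :
    KK (cp d p h) (cq d q h) (h / 3) ⊆ KK p q h := by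
  rintro z ⟨h1, h2⟩
  exact ⟨cantor_scale hh (Nat.mod_lt _ (by norm_num)) h1,
    cantor_scale (h := h / 3) (by positivity) (a := d / 2) (by omega) h2⟩

lemma cantor_sep {x y h p : ℝ} (hh : 0 < h) {a b : ℕ} (hab : a < b)
    (ha : (x - (p + 2 * (a : ℝ) * (h / 3))) / (h / 3) ∈ cantorSet)
    (hb : (y - (p + 2 * (b : ℝ) * (h / 3))) / (h / 3) ∈ cantorSet) : h / 3 ≤ y - x := by
  have h1 := (cantorSet_subset_unitInterval ha).2
  have h2 := (cantorSet_subset_unitInterval hb).1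
  rw [div_le_iff₀ (by positivity)] at h1
  rw [le_div_iff₀ (by positivity)] at h2
  have h3 : (a : ℝ) + 1 ≤ b := by exact_mod_cast hab
  nlinarith

lemma KK_sep {p q h : ℝ} (hh : 0 < h) {d e : ℕ} (hd : d < 4) (he : e < 4) (hne : d ≠ e)
    {x y : ℝ × ℝ} (hx : x ∈ KK (cp d p h) (cq d q h) (h / 3))
    (hy : y ∈ KK (cp e p h) (cq e q h) (h / 3)) : h / 9 ≤ dist x y := by
  have e1 : |x.1 - y.1| ≤ dist x y := by
    rw [← Real.dist_eq, Prod.dist_eq]; exact le_max_left _ _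
  have e2 : |x.2 - y.2| ≤ dist x y := by
    rw [← Real.dist_eq, Prod.dist_eq]; exact le_max_right _ _
  obtain ⟨h1, h2⟩ := hx
  obtain ⟨h3, h4⟩ := hy
  have e3 := abs_le.1 e1
  have e4 := abs_le.1 e2
  have hh3 : 0 < h / 3 := by positivity
  rcases lt_trichotomy (d % 2) (e % 2) with h' | h' | h'
  · have := cantor_sep hh h' h1 h3
    linarith
  · rcases lt_trichotomy (d / 2) (e / 2) with h'' | h'' | h''
    · have := cantor_sep hh3 h'' h2 h4
      linarith
    · omega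
    · have := cantor_sep hh3 h'' h4 h2
      linarith
  · have := cantor_sep hh h' h3 h1
    linarith

lemma tval_child {p q h : ℝ} (hh : 0 < h) {d : ℕ} (hd : d < 4) :
    tval (cp d p h) (cq d q h) (h / 3) =
      3 * tval p q h - 2 * ((d % 2 : ℕ) : ℝ) * p - (2 / 3) * ((d / 2 : ℕ) : ℝ) * q -
        (2 / 3) * h * ((d % 2 : ℕ) : ℝ) - (2 / 27) * h * ((d / 2 : ℕ) : ℝ) := by
  have := hh.ne'
  unfold tval cp cq
  interval_cases d <;> norm_num <;> field_simp <;> ring

/-- the rectangle lies in the base rectangle -/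
def Near (p q h : ℝ) : Prop :=
  0 < h ∧ (Ph : ℝ) ≤ p * U ∧ (p + h) * U ≤ Ph + 3 ∧ 3 * (Qh : ℝ) ≤ q * U ∧
    (q + h / 3) * U ≤ 3 * Qh + 3

lemma Near_child {p q h : ℝ} (hn : Near p q h) {d : ℕ} (hd : d < 4) :
    Near (cp d p h) (cq d q h) (h / 3) := by
  obtain ⟨h0, h1, h2, h3, h4⟩ := hn
  have hU := U_pos
  have hhU : 0 < h * U := by positivity
  unfold cp cq
  refine ⟨by positivity, ?_, ?_, ?_, ?_⟩ <;> interval_cases d <;> norm_num <;> nlinarith

/-- lower and upper bound for the residual of the child -/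
lemma step_sound {p q h : ℝ} (hn : Near p q h) {d : ℕ} (hd : d < 4) {l r : ℝ}
    (hL : l ≤ tval p q h * U) (hR : tval p q h * U ≤ r) :
    3 * l - (2 * ((d % 2 : ℕ) : ℝ) * Ph + 2 * ((d / 2 : ℕ) : ℝ) * Qh) -
        8 * (((d % 2 : ℕ) : ℝ) + ((d / 2 : ℕ) : ℝ)) ≤ tval (cp d p h) (cq d q h) (h / 3) * U ∧
      tval (cp d p h) (cq d q h) (h / 3) * U ≤
        3 * r - (2 * ((d % 2 : ℕ) : ℝ) * Ph + 2 * ((d / 2 : ℕ) : ℝ) * Qh) := by
  obtain ⟨h0, h1, h2, h3, h4⟩ := hn
  have hU := U_pos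
  have hhU : 0 < h * U := by positivity
  rw [tval_child h0 hd]
  have e1 : (p + h) * U = p * U + h * U := by ring
  have e2 : (q + h / 3) * U = q * U + h * U / 3 := by ring
  rw [e1] at h2
  rw [e2] at h4
  have e3 : (3 * tval p q h - 2 * ((d % 2 : ℕ) : ℝ) * p - (2 / 3) * ((d / 2 : ℕ) : ℝ) * q -
        (2 / 3) * h * ((d % 2 : ℕ) : ℝ) - (2 / 27) * h * ((d / 2 : ℕ) : ℝ)) * U =
      3 * (tval p q h * U) - 2 * ((d % 2 : ℕ) : ℝ) * (p * U) -
        (2 / 3) * ((d / 2 : ℕ) : ℝ) * (q * U) -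
        (2 / 3) * (h * U) * ((d % 2 : ℕ) : ℝ) - (2 / 27) * (h * U) * ((d / 2 : ℕ) : ℝ) := by ring
  rw [e3]
  generalize tval p q h * U = T at *
  generalize p * U = P at *
  generalize q * U = Q at *
  generalize h * U = H at *
  have hd' : d = 0 ∨ d = 1 ∨ d = 2 ∨ d = 3 := by omega
  rcases hd' with rfl | rfl | rfl | rfl <;> norm_num <;> constructor <;> linarith

lemma KK_compact {p q h : ℝ} (hh : 0 < h) : IsCompact (KK p q h) := by
  have h1 : KK p q h =
      (fun z : ℝ × ℝ => (p + h * z.1, q + h / 3 * z.2)) '' (cantorSet ×ˢ cantorSet) := by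
    ext z
    constructor
    · rintro ⟨h1, h2⟩
      refine ⟨((z.1 - p) / h, (z.2 - q) / (h / 3)), ⟨h1, h2⟩, ?_⟩
      have := hh.ne'
      ext <;> simp only <;> field_simp <;> ring
    · rintro ⟨w, ⟨hw1, hw2⟩, rfl⟩
      have := hh.ne'
      refine ⟨?_, ?_⟩
      · have e : (p + h * w.1 - p) / h = w.1 := by field_simp; ring
        change (p + h * w.1 - p) / h ∈ cantorSet
        rw [e]; exact hw1
      · have e : (q + h / 3 * w.2 - q) / (h / 3) = w.2 := by field_simp; ring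
        change (q + h / 3 * w.2 - q) / (h / 3) ∈ cantorSet
        rw [e]; exact hw2
  rw [h1]
  exact (isCompact_cantorSet.prod isCompact_cantorSet).image (by fun_prop)

lemma corner_mem {p q h : ℝ} : (p, q) ∈ KK p q h := by
  refine ⟨?_, ?_⟩ <;> simp [zero_mem_cantorSet]

end Pool.Agent.V8H5.CD
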