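import Pool.Agent.V8H5.CD.Rec
import Pool.Agent.V8H5.CD.Dim
import Pool.Agent.V8H5.CD.C0
import Pool.Agent.V8H5.CD.C1
import Pool.Agent.V8H5.CD.C2
import Pool.Agent.V8H5.CD.C3
import Pool.Agent.V8H5.CD.C4
import Pool.Agent.V8H5.CD.C5
import Pool.Agent.V8H5.CD.C6
import Pool.Agent.V8H5.CD.C7
import Pool.Agent.V8H5.CD.C8
import Pool.Agent.V8H5.CD.C9
import Pool.Agent.V8H5.CD.C10
import Pool.Agent.V8H5.CD.C11
import Pool.Agent.V8H5.CD.C12
import Pool.Agent.V8H5.CD.C13
import Pool.Agent.V8H5.CD.C14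
import Pool.Agent.V8H5.CD.C15

/-!
`dim_H ((C × C) ∩ circle) ≥ 1 / 8`.
-/

set_option autoImplicit false

namespace Pool.Agent.V8H5.CD

open Set

lemma cover' {σ : St} (hσ : NearS σ) {L : List ℕ} {l r : ℕ} (hc : chk L l = true)
    (hr : (L.getLast?.getD l) = r) (hne : (!L.isEmpty) = true) (h1 : (l : ℝ) ≤ T σ)
    (h2 : T σ ≤ r) : HasPar σ.h 1 (K σ) := by
  refine cover hσ L l hc h1 (by rw [hr]; exact h2) ?_
  rintro rfl
  simp at hne

theorem all_par : ∀ σ, Jst σ → HasPar σ.h 1 (K σ) := by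
  rintro σ ⟨hσ, h1, h2⟩
  rcases le_total (T σ) (1230879697910189 : ℕ) with h | h
  · exact cover' hσ chk_L0 (by decide +kernel) (by decide +kernel) h1 h
  clear h1; have h1 := h; clear h
  rcases le_total (T σ) (1263434558544189 : ℕ) with h | h
  · exact cover' hσ chk_L1 (by decide +kernel) (by decide +kernel) h1 h
  clear h1; have h1 := h; clear h
  rcases le_total (T σ) (1281810591830189 : ℕ) with h | h
  · exact cover' hσ chk_L2 (by decide +kernel) (by decide +kernel) h1 h
  clear h1; have h1 := h; clear h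
  rcases le_total (T σ) (1309528110621189 : ℕ) with h | h
  · exact cover' hσ chk_L3 (by decide +kernel) (by decide +kernel) h1 h
  clear h1; have h1 := h; clear h
  rcases le_total (T σ) (1309913691096689 : ℕ) with h | h
  · exact cover' hσ chk_L4 (by decide +kernel) (by decide +kernel) h1 h
  clear h1; have h1 := h; clear h
  rcases le_total (T σ) (1310077123016188 : ℕ) with h | h
  · exact cover' hσ chk_L5 (by decide +kernel) (by decide +kernel) h1 h
  clear h1; have h1 := h; clear h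
  rcases le_total (T σ) (1314070366610563 : ℕ) with h | h
  · exact cover' hσ chk_L6 (by decide +kernel) (by decide +kernel) h1 h
  clear h1; have h1 := h; clear h
  rcases le_total (T σ) (1620503291740563 : ℕ) with h | h
  · exact cover' hσ chk_L7 (by decide +kernel) (by decide +kernel) h1 h
  clear h1; have h1 := h; clear h
  rcases le_total (T σ) (1901388231186563 : ℕ) with h | h
  · exact cover' hσ chk_L8 (by decide +kernel) (by decide +kernel) h1 h
  clear h1; have h1 := h; clear h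
  rcases le_total (T σ) (1905381741919563 : ℕ) with h | h
  · exact cover' hσ chk_L9 (by decide +kernel) (by decide +kernel) h1 h
  clear h1; have h1 := h; clear h
  rcases le_total (T σ) (1905547145702625 : ℕ) with h | h
  · exact cover' hσ chk_L10 (by decide +kernel) (by decide +kernel) h1 h
  clear h1; have h1 := h; clear h
  rcases le_total (T σ) (1905930796999125 : ℕ) with h | h
  · exact cover' hσ chk_L11 (by decide +kernel) (by decide +kernel) h1 h
  clear h1; have h1 := h; clear h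
  rcases le_total (T σ) (1933650020577125 : ℕ) with h | h
  · exact cover' hσ chk_L12 (by decide +kernel) (by decide +kernel) h1 h
  clear h1; have h1 := h; clear h
  rcases le_total (T σ) (1952082008535125 : ℕ) with h | h
  · exact cover' hσ chk_L13 (by decide +kernel) (by decide +kernel) h1 h
  clear h1; have h1 := h; clear h
  rcases le_total (T σ) (1984607029681125 : ℕ) with h | h
  · exact cover' hσ chk_L14 (by decide +kernel) (by decide +kernel) h1 h
  clear h1; have h1 := h; clear h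
  exact cover' hσ chk_L15 (by decide +kernel) (by decide +kernel) h1 h2

/-- the part of `C × C` on the unit circle -/
def E : Set (ℝ × ℝ) := {z | z.1 ∈ cantorSet ∧ z.2 ∈ cantorSet ∧ z.1 ^ 2 + z.2 ^ 2 = 1}

/-- membership of a ternary point in the scaled Cantor set -/
lemma cantor_of_digits (w : List ℕ) : ∀ (P : ℕ) (n : ℕ), (∀ d ∈ w, d < 2) → ∀ x : ℝ,
    (x - ((w.foldl (fun a d => 3 * a + 2 * d) P : ℕ) : ℝ) / 3 ^ (n + w.length)) /
      (1 / 3 ^ (n + w.length)) ∈ cantorSet →
    (x - (P : ℝ) / 3 ^ n) / (1 / 3 ^ n) ∈ cantorSet := by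
  induction w with
  | nil => intro P n _ x hx; simpa using hx
  | cons d w ih =>
    intro P n hw x hx
    have hd : d < 2 := hw d (by simp)
    have h1 := ih (3 * P + 2 * d) (n + 1) (fun e he => hw e (List.mem_cons_of_mem _ he)) x (by
      have e0 : n + 1 + w.length = n + (d :: w).length := by simp; ring
      rw [e0]
      exact hx)
    apply cantor_scale (h := 1 / 3 ^ n) (by positivity) hd
    have e1 : (P : ℝ) / 3 ^ n + 2 * (d : ℝ) * (1 / 3 ^ n / 3) =
        ((3 * P + 2 * d : ℕ) : ℝ) / 3 ^ (n + 1) := by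
      push_cast
      rw [pow_succ]; field_simp
    have e3 : (1 / 3 ^ n / 3 : ℝ) = 1 / 3 ^ (n + 1) := by rw [pow_succ]; field_simp
    rw [e1, e3]
    exact h1

/-- digits of the first coordinate of the base rectangle -/
def wp : List ℕ := [0, 1, 0, 1, 1, 0, 1, 0, 1, 1, 1, 1, 1, 0, 1, 1, 0, 0, 0, 0, 0, 0, 0, 0, 0, 0, 0,
  0, 0, 1, 1, 1]

/-- digits of the second coordinate of the base rectangle -/
def wq : List ℕ := [1, 1, 1, 0, 0, 1, 1, 0, 0, 0, 0, 0, 0, 0, 0, 1, 1, 1, 1, 0, 0, 1, 1, 1, 1, 0, 1,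
  0, 1, 1, 1, 0, 0]

/-- the base rectangle -/
noncomputable def σ₀ : St := ⟨474763232936888 / 3 ^ 32, 5373504744251598 / 3 ^ 33, 1 / 3 ^ 32⟩

lemma σ₀_jst : Jst σ₀ := by
  refine ⟨?_, ?_, ?_⟩
  · unfold NearS Near σ₀ U Ph Qh
    norm_num
  · unfold T tval σ₀ U Ja
    norm_num
  · unfold T tval σ₀ U Jb
    norm_num

lemma K_σ₀ {z : ℝ × ℝ} (hz : z ∈ K σ₀) : z.1 ∈ cantorSet ∧ z.2 ∈ cantorSet := by
  obtain ⟨h1, h2⟩ := hz
  constructor
  · have h := cantor_of_digits wp 0 0 (by decide +kernel) z.1 (by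
      have e1 : (wp.foldl (fun a d => 3 * a + 2 * d) 0 : ℕ) = 474763232936888 := by
        decide +kernel
      have e2 : 0 + wp.length = 32 := by decide +kernel
      rw [e1, e2, Nat.cast_ofNat]
      exact h1)
    simpa using h
  · have h := cantor_of_digits wq 0 0 (by decide +kernel) z.2 (by
      have e1 : (wq.foldl (fun a d => 3 * a + 2 * d) 0 : ℕ) = 5373504744251598 := by
        decide +kernel
      have e2 : 0 + wq.length = 33 := by decide +kernel
      rw [e1, e2, Nat.cast_ofNat]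
      have e3 : σ₀.h / 3 = 1 / 3 ^ 33 := by
        show (1 : ℝ) / 3 ^ 32 / 3 = 1 / 3 ^ 33
        norm_num
      rw [e3] at h2
      exact h2)
    simpa using h

theorem main : (1 : ENNReal) / 8 ≤ dimH E ∧ Cardinal.mk E = Cardinal.continuum := by
  obtain ⟨g, hg1, hg2⟩ := exists_g σ₀_jst all_par
  have hc : 0 < σ₀.h / 3 ^ 40 := by
    have := σ₀_jst.1.1
    positivity
  have hE : ∀ u, 0 ≤ u → u < 1 → g u ∈ E := fun u hu hu' =>
    ⟨(K_σ₀ (hg1 u hu hu').1).1, (K_σ₀ (hg1 u hu hu').1).2, (hg1 u hu hu').2⟩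
  obtain ⟨h1, h2⟩ := dim_of_g (E := E) hc hE hg2
  refine ⟨h1, le_antisymm ?_ ?_⟩
  · refine (Cardinal.mk_set_le E).trans ?_
    rw [Cardinal.mk_prod, Cardinal.lift_id, Cardinal.mk_real, Cardinal.continuum_mul_self]
  · have h3 : Cardinal.mk (Ico (0 : ℝ) 1) ≤ Cardinal.mk E := by
      refine Cardinal.mk_le_of_injective (f := fun u => ⟨g u.1, hE u.1 u.2.1 u.2.2⟩) ?_
      intro u v huv
      have : g u.1 = g v.1 := congrArg Subtype.val huv
      exact Subtype.ext (h2 u.2 v.2 this)
    rwa [Cardinal.mk_Ico_real (by norm_num)] at h3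

end Pool.Agent.V8H5.CD
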