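import Pool.Agent.V8H5.CD.Geo

/-!
Parametrised families of window states inside a rectangle.
-/

set_option autoImplicit false

namespace Pool.Agent.V8H5.CD

open Set

/-- a rectangle -/
structure St where
  /-- first coordinate of the corner -/
  p : ℝ
  /-- second coordinate of the corner -/
  q : ℝ
  /-- the width -/
  h : ℝ

/-- the points of the scaled `C × C` in the rectangle -/
def K (σ : St) : Set (ℝ × ℝ) := KK σ.p σ.q σ.h

/-- the residual in units of `3 ^ (-33)` -/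
noncomputable def T (σ : St) : ℝ := tval σ.p σ.q σ.h * U

/-- in the base rectangle -/
def NearS (σ : St) : Prop := Near σ.p σ.q σ.h

/-- in the base rectangle, with residual in the window -/
def Jst (σ : St) : Prop := NearS σ ∧ (Ja : ℝ) ≤ T σ ∧ T σ ≤ Jb

/-- the child `d` -/
noncomputable def child (d : ℕ) (σ : St) : St := ⟨cp d σ.p σ.h, cq d σ.q σ.h, σ.h / 3⟩

/-- `F` parametrises window states inside `A` by the numbers in `[0, V)`. -/
def Par (H V : ℝ) (A : Set (ℝ × ℝ)) (F : ℝ → St × ℝ) : Prop :=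
  (∀ u, 0 ≤ u → u < V →
    Jst (F u).1 ∧ K (F u).1 ⊆ A ∧ (F u).1.h ≤ H / 3 ∧ 0 ≤ (F u).2 ∧ (F u).2 < 1) ∧
  (∀ u v, 0 ≤ u → u < V → 0 ≤ v → v < V →
    ((F u).1 = (F v).1 ∧
      |u - v| ≤ ((F u).1.h / H) ^ (1 / 8 : ℝ) * |(F u).2 - (F v).2|) ∨
    (∀ x ∈ K (F u).1, ∀ y ∈ K (F v).1, H / 3 ^ 40 ≤ dist x y))

/-- existence of a parametrisation -/
def HasPar (H V : ℝ) (A : Set (ℝ × ℝ)) : Prop := ∃ F, Par H V A F

lemma HasPar.zero {H V : ℝ} {A : Set (ℝ × ℝ)} (hV : V ≤ 0) : HasPar H V A :=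
  ⟨fun _ => (⟨0, 0, 0⟩, 0), fun u h1 h2 => by linarith, fun u v h1 h2 _ _ => by linarith⟩

lemma HasPar.mono {H V V' : ℝ} {A B : Set (ℝ × ℝ)} (h : HasPar H V A) (hV : V' ≤ V)
    (hA : A ⊆ B) : HasPar H V' B := by
  obtain ⟨F, h1, h2⟩ := h
  refine ⟨F, fun u hu hu' => ?_, fun u v hu hu' hv hv' =>
    h2 u v hu (hu'.trans_le hV) hv (hv'.trans_le hV)⟩
  obtain ⟨a1, a2, a3⟩ := h1 u hu (hu'.trans_le hV)
  exact ⟨a1, a2.trans hA, a3⟩

/-- all points of `A` and `B` have distance at least `H / 3 ^ 40` -/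
def Sep (H : ℝ) (A B : Set (ℝ × ℝ)) : Prop := ∀ x ∈ A, ∀ y ∈ B, H / 3 ^ 40 ≤ dist x y

lemma HasPar.add {H V₁ V₂ : ℝ} {A₁ A₂ : Set (ℝ × ℝ)} (h₁ : HasPar H V₁ A₁)
    (h₂ : HasPar H V₂ A₂) (hs : Sep H A₁ A₂) : HasPar H (V₁ + V₂) (A₁ ∪ A₂) := by
  obtain ⟨F₁, a1, a2⟩ := h₁
  obtain ⟨F₂, b1, b2⟩ := h₂
  refine ⟨fun u => if u < V₁ then F₁ u else F₂ (u - V₁), fun u hu hu' => ?_,
    fun u v hu hu' hv hv' => ?_⟩
  · by_cases h : u < V₁
    · simp only [h, if_true]
      obtain ⟨c1, c2, c3⟩ := a1 u hu h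
      exact ⟨c1, c2.trans subset_union_left, c3⟩
    · simp only [h, if_false]
      push Not at h
      obtain ⟨c1, c2, c3⟩ := b1 (u - V₁) (by linarith) (by linarith)
      exact ⟨c1, c2.trans subset_union_right, c3⟩
  · by_cases h : u < V₁ <;> by_cases h' : v < V₁
    · simp only [h, h', if_true]
      exact a2 u v hu h hv h'
    · simp only [h, h', if_true, if_false]
      push Not at h'
      right
      intro x hx y hy
      exact hs x ((a1 u hu h).2.1 hx) y ((b1 (v - V₁) (by linarith) (by linarith)).2.1 hy)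
    · simp only [h, h', if_true, if_false]
      push Not at h
      right
      intro x hx y hy
      rw [dist_comm]
      exact hs y ((a1 v hv h').2.1 hy) x ((b1 (u - V₁) (by linarith) (by linarith)).2.1 hx)
    · simp only [h, h', if_false]
      push Not at h h'
      have := b2 (u - V₁) (v - V₁) (by linarith) (by linarith) (by linarith) (by linarith)
      have e : u - V₁ - (v - V₁) = u - v := by ring
      rwa [e] at this

lemma HasPar.stop {H : ℝ} (hH : 0 < H) {σ : St} (hσ : Jst σ) {n : ℕ} (hn : 1 ≤ n)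
    (hh : σ.h = H / 3 ^ n) {w : ℕ}
    (hw : (w : ℝ) / 1000000 ≤ ((1 / 3 : ℝ) ^ n) ^ (1 / 8 : ℝ)) :
    HasPar H ((w : ℝ) / 1000000) (K σ) := by
  rcases Nat.eq_zero_or_pos w with rfl | hw0
  · exact HasPar.zero (by simp)
  have hw1 : (0 : ℝ) < w := by exact_mod_cast hw0
  refine ⟨fun u => (σ, u / (w / 1000000)), fun u hu hu' => ?_, fun u v hu hu' hv hv' => ?_⟩
  · refine ⟨hσ, Subset.rfl, ?_, by positivity, ?_⟩
    · show σ.h ≤ H / 3
      rw [hh]
      apply div_le_div_of_nonneg_left hH.le (by norm_num)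
      calc (3 : ℝ) = 3 ^ 1 := by norm_num
        _ ≤ 3 ^ n := pow_le_pow_right₀ (by norm_num) hn
    · show u / (w / 1000000) < 1
      rw [div_lt_one (by positivity)]
      exact hu'
  · left
    refine ⟨rfl, ?_⟩
    show |u - v| ≤ (σ.h / H) ^ (1 / 8 : ℝ) * |u / (w / 1000000) - v / (w / 1000000)|
    have e1 : σ.h / H = (1 / 3 : ℝ) ^ n := by
      rw [hh, one_div, inv_pow]
      field_simp
    rw [e1, ← sub_div, abs_div, abs_of_pos (by positivity : (0 : ℝ) < w / 1000000)]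
    calc |u - v| = (w / 1000000) * (|u - v| / (w / 1000000)) := by field_simp
      _ ≤ _ := by
        apply mul_le_mul_of_nonneg_right hw
        positivity

/-- the stopping values are not too large -/
def Wok : ℕ → List ℕ → Prop
  | _, [] => True
  | n, w :: ws => (w : ℝ) / 1000000 ≤ ((1 / 3 : ℝ) ^ n) ^ (1 / 8 : ℝ) ∧ Wok (n + 1) ws

/-- the corresponding check -/
def wchk : ℕ → List ℕ → Bool
  | _, [] => true
  | n, w :: ws => decide (w ^ 8 * 3 ^ n ≤ 1000000 ^ 8) && wchk (n + 1) ws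

lemma wok_of_wchk : ∀ (ws : List ℕ) (n : ℕ), wchk n ws = true → Wok n ws := by
  intro ws
  induction ws with
  | nil => intro n _; trivial
  | cons w ws ih =>
    intro n h
    simp only [wchk, Bool.and_eq_true, decide_eq_true_eq] at h
    refine ⟨?_, ih _ h.2⟩
    have h1 : ((w : ℝ)) ^ 8 * 3 ^ n ≤ 1000000 ^ 8 := by exact_mod_cast h.1
    have h2 : ((w : ℝ) / 1000000) ^ (8 : ℕ) ≤ (1 / 3 : ℝ) ^ n := by
      rw [div_pow, one_div, inv_pow, div_le_iff₀ (by positivity), inv_mul_eq_div,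
        le_div_iff₀ (by positivity)]
      exact h1
    calc (w : ℝ) / 1000000 = (((w : ℝ) / 1000000) ^ (8 : ℕ)) ^ (1 / 8 : ℝ) := by
          rw [← Real.rpow_natCast, ← Real.rpow_mul (by positivity)]
          norm_num
      _ ≤ _ := Real.rpow_le_rpow (by positivity) h2 (by norm_num)

lemma brec_cases (b : Bool) (x : ℕ) :
    (Bool.rec (motive := fun _ => ℕ) 0 x b : ℕ) = 0 ∨
      (b = true ∧ (Bool.rec (motive := fun _ => ℕ) 0 x b : ℕ) = x) := by
  cases b
  · exact Or.inl rfl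
  · exact Or.inr ⟨rfl, rfl⟩

lemma sel_cases (w l r s : ℕ) : sel w l r s = s ∨ (sel w l r s = w ∧ Ja ≤ l ∧ r ≤ Jb) := by
  unfold sel
  rcases hb : Nat.ble Ja l with _ | _
  · left
    have : Nat.ble 1226266744858189 l = false := hb
    rw [this]
  · have hb' : Nat.ble 1226266744858189 l = true := hb
    rw [hb']
    rcases hc : Nat.ble r Jb with _ | _
    · left
      have hc' : Nat.ble r 1989191202036340 = false := hc
      rw [hc']
    · have hc' : Nat.ble r 1989191202036340 = true := hc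
      rw [hc']
      rcases hd : Nat.ble s w with _ | _
      · left; rfl
      · right
        exact ⟨rfl, Nat.le_of_ble_eq_true hb, Nat.le_of_ble_eq_true hc⟩

lemma ex_cons (w : ℕ) (ws : List ℕ) (l r : ℕ) :
    ex (w :: ws) l r = sel w l r (sumc (ex ws) l r) := rfl

lemma ex_nil (l r : ℕ) : ex [] l r = 0 := rfl

end Pool.Agent.V8H5.CD
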