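import Pool.Agent.V8H5.CD.Par

/-!
The recursion: the value of an interval gives a parametrisation.
-/

set_option autoImplicit false

namespace Pool.Agent.V8H5.CD

open Set

lemma near_child {σ : St} (hσ : NearS σ) {d : ℕ} (hd : d < 4) : NearS (child d σ) :=
  Near_child hσ hd

lemma K_child {σ : St} (hσ : NearS σ) {d : ℕ} (hd : d < 4) : K (child d σ) ⊆ K σ :=
  KK_child hσ.1 hd

lemma sep_child {H : ℝ} (hH : 0 < H) {σ : St} (hσ : NearS σ) {n : ℕ} (hn : n ≤ 38)
    (hh : σ.h = H / 3 ^ n) {d e : ℕ} (hd : d < 4) (he : e < 4) (hne : d ≠ e) :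
    Sep H (K (child d σ)) (K (child e σ)) := by
  intro x hx y hy
  have h1 := KK_sep hσ.1 hd he hne hx hy
  refine le_trans ?_ h1
  rw [hh, div_div]
  apply div_le_div_of_nonneg_left hH.le (by positivity)
  calc (3 : ℝ) ^ n * 9 ≤ 3 ^ 38 * 9 := by
        apply mul_le_mul_of_nonneg_right _ (by norm_num)
        exact pow_le_pow_right₀ (by norm_num) hn
    _ = 3 ^ 40 := by norm_num

/-- the contribution of the child `d` -/
lemma one_child {H : ℝ} {f : ℕ → ℕ → ℕ} {σ : St} (hσ : NearS σ) {d : ℕ} (hd : d < 4)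
    (hf : ∀ l' r' : ℕ, (l' : ℝ) ≤ T (child d σ) → T (child d σ) ≤ r' →
      HasPar H ((f l' r' : ℝ) / 1000000) (K (child d σ)))
    {l r : ℕ} (hl : (l : ℝ) ≤ T σ) (hr : T σ ≤ r) {c e : ℕ}
    (hc : c = 2 * (d % 2) * Ph + 2 * (d / 2) * Qh) (he : e = 8 * (d % 2 + d / 2))
    (hce : c + e ≤ 3 * l) :
    HasPar H ((f (3 * l - (c + e)) (3 * r - c) : ℝ) / 1000000) (K (child d σ)) := by
  obtain ⟨s1, s2⟩ := step_sound hσ hd hl hr
  have hlr : l ≤ r := by exact_mod_cast hl.trans hr
  apply hf
  · refine le_trans (le_of_eq ?_) s1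
    rw [Nat.cast_sub hce, hc, he]
    push_cast
    ring
  · refine le_trans s2 (le_of_eq ?_)
    have : c ≤ 3 * r := by omega
    rw [Nat.cast_sub this, hc]
    push_cast
    ring

lemma sum_par {H : ℝ} (hH : 0 < H) {f : ℕ → ℕ → ℕ} {n : ℕ} (hn : n ≤ 38) {σ : St}
    (hσ : NearS σ) (hh : σ.h = H / 3 ^ n)
    (hf : ∀ d < 4, ∀ l' r' : ℕ, (l' : ℝ) ≤ T (child d σ) → T (child d σ) ≤ r' →
      HasPar H ((f l' r' : ℝ) / 1000000) (K (child d σ)))
    {l r : ℕ} (hl : (l : ℝ) ≤ T σ) (hr : T σ ≤ r) :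
    HasPar H ((sumc f l r : ℝ) / 1000000) (K σ) := by
  unfold sumc
  -- child 0
  have p0 : HasPar H (((Bool.rec (motive := fun _ => ℕ) 0 (f (Nat.mul 3 l) (Nat.mul 3 r))
      (Nat.ble r 1071819315631510) : ℕ) : ℝ) / 1000000) (K (child 0 σ)) := by
    rcases brec_cases (Nat.ble r 1071819315631510) (f (Nat.mul 3 l) (Nat.mul 3 r)) with h | ⟨_, h⟩
    · rw [h]; exact HasPar.zero (by simp)
    · rw [h]
      have := one_child (H := H) (f := f) hσ (d := 0) (by norm_num) (hf 0 (by norm_num)) hl hr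
        (c := 0) (e := 0) (by norm_num) (by norm_num) (by omega)
      exact this
  have p1 : ∀ d < 4, ∀ (c e cl : ℕ) (b : Bool), c = 2 * (d % 2) * Ph + 2 * (d / 2) * Qh →
      e = 8 * (d % 2 + d / 2) → (c + e ≤ 3 * cl) →
      HasPar H (((Bool.rec (motive := fun _ => ℕ) 0 (Bool.rec (motive := fun _ => ℕ) 0
        (f (Nat.sub (Nat.mul 3 l) (c + e)) (Nat.sub (Nat.mul 3 r) c)) b)
        (Nat.ble cl l) : ℕ) : ℝ) / 1000000) (K (child d σ)) := by
    intro d hd c e cl b hc he hcl
    rcases brec_cases (Nat.ble cl l) (Bool.rec (motive := fun _ => ℕ) 0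
        (f (Nat.sub (Nat.mul 3 l) (c + e)) (Nat.sub (Nat.mul 3 r) c)) b) with h | ⟨h0, h⟩
    · rw [h]; exact HasPar.zero (by simp)
    · rw [h]
      rcases brec_cases b
        (f (Nat.sub (Nat.mul 3 l) (c + e)) (Nat.sub (Nat.mul 3 r) c)) with h | ⟨_, h⟩
      · rw [h]; exact HasPar.zero (by simp)
      · rw [h]
        have h0' := Nat.le_of_ble_eq_true h0
        exact one_child (H := H) (f := f) hσ hd (hf d hd) hl hr hc he (by omega)
  have q1 := p1 1 (by norm_num) 2848579397621328 8 949526465873779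
    (Nat.ble r 2021345781505286) (by decide +kernel) (by norm_num) (by norm_num)
  have q2 := p1 2 (by norm_num) 3582336496167732 8 1194112165389247
    (Nat.ble r 2265931481020754) (by decide +kernel) (by norm_num) (by norm_num)
  have q3 := p1 3 (by norm_num) 6430915893789060 16 2143638631263026
    (Nat.ble r 3215457946894530) (by decide +kernel) (by norm_num) (by norm_num)
  have s01 := p0.add q1 (sep_child hH hσ hn hh (by norm_num) (by norm_num) (by norm_num))
  have s23 := q2.add q3 (sep_child hH hσ hn hh (by norm_num) (by norm_num) (by norm_num))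
  have s := s01.add s23 (by
    rintro x (hx | hx) y (hy | hy)
    · exact sep_child hH hσ hn hh (by norm_num) (by norm_num) (by norm_num) x hx y hy
    · exact sep_child hH hσ hn hh (by norm_num) (by norm_num) (by norm_num) x hx y hy
    · exact sep_child hH hσ hn hh (by norm_num) (by norm_num) (by norm_num) x hx y hy
    · exact sep_child hH hσ hn hh (by norm_num) (by norm_num) (by norm_num) x hx y hy)
  refine s.mono (le_of_eq ?_) ?_
  · simp only [Nat.add_eq, Nat.cast_add]
    ring
  · intro x hx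
    rcases hx with (hx | hx) | (hx | hx)
    · exact K_child hσ (by norm_num) hx
    · exact K_child hσ (by norm_num) hx
    · exact K_child hσ (by norm_num) hx
    · exact K_child hσ (by norm_num) hx

lemma child_h {H : ℝ} {σ : St} {n : ℕ} (hh : σ.h = H / 3 ^ n) (d : ℕ) :
    (child d σ).h = H / 3 ^ (n + 1) := by
  show σ.h / 3 = _
  rw [hh, pow_succ]; field_simp

lemma ex_par {H : ℝ} (hH : 0 < H) : ∀ (ws : List ℕ) (n : ℕ), 1 ≤ n → n + ws.length ≤ 38 →
    Wok n ws → ∀ (σ : St), NearS σ → σ.h = H / 3 ^ n → ∀ l r : ℕ, (l : ℝ) ≤ T σ → T σ ≤ r →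
    HasPar H ((ex ws l r : ℝ) / 1000000) (K σ) := by
  intro ws
  induction ws with
  | nil =>
    intro n _ _ _ σ _ _ l r _ _
    rw [ex_nil]
    exact HasPar.zero (by simp)
  | cons w ws ih =>
    intro n hn hlen hw σ hσ hh l r hl hr
    rw [ex_cons]
    simp only [List.length_cons] at hlen
    rcases sel_cases w l r (sumc (ex ws) l r) with h | ⟨h, h1, h2⟩
    · rw [h]
      exact sum_par hH (n := n) (by omega) hσ hh (fun d hd l' r' hl' hr' =>
        ih (n + 1) (by omega) (by omega) hw.2 (child d σ) (near_child hσ hd) (child_h hh d)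
          l' r' hl' hr') hl hr
    · rw [h]
      refine HasPar.stop hH ⟨hσ, ?_, ?_⟩ hn hh hw.1
      · exact le_trans (by exact_mod_cast h1) hl
      · exact le_trans hr (by exact_mod_cast h2)

lemma W_ok : Wok 1 W := wok_of_wchk W 1 (by decide +kernel)

lemma W_len : W.length = 36 := by decide +kernel

/-- the top level -/
lemma top_par {σ : St} (hσ : NearS σ) {l r : ℕ} (hl : (l : ℝ) ≤ T σ) (hr : T σ ≤ r)
    (hv : 1000000 ≤ sumc (ex W) l r) : HasPar σ.h 1 (K σ) := by
  have hH : 0 < σ.h := hσ.1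
  have h1 := sum_par (H := σ.h) hH (f := ex W) (n := 0) (by norm_num) hσ (by simp)
    (fun d hd l' r' hl' hr' => ex_par hH W 1 le_rfl (by rw [W_len]; norm_num) W_ok (child d σ)
      (near_child hσ hd) (by simpa using child_h (H := σ.h) (σ := σ) (n := 0) (by simp) d)
      l' r' hl' hr') hl hr
  refine h1.mono ?_ Subset.rfl
  rw [le_div_iff₀ (by norm_num)]
  have : ((1000000 : ℕ) : ℝ) ≤ (sumc (ex W) l r : ℝ) := by exact_mod_cast hv
  push_cast at this
  linarith

lemma chk_cons (r : ℕ) (L : List ℕ) (l : ℕ) : chk (r :: L) l =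
    Bool.rec (motive := fun _ => Bool) false (chk L r) (Nat.ble 1000000 (sumc (ex W) l r)) := rfl

/-- intervals covered by a list -/
lemma cover {σ : St} (hσ : NearS σ) : ∀ (L : List ℕ) (l : ℕ), chk L l = true →
    (l : ℝ) ≤ T σ → T σ ≤ (L.getLast?.getD l : ℕ) → L ≠ [] → HasPar σ.h 1 (K σ) := by
  intro L
  induction L with
  | nil => intro l _ _ _ h; exact absurd rfl h
  | cons r L ih =>
    intro l hc hl hr _
    rw [chk_cons] at hc
    rcases hb : Nat.ble 1000000 (sumc (ex W) l r) with _ | _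
    · rw [hb] at hc; exact absurd hc (by simp)
    · rw [hb] at hc
      rcases le_total (T σ) r with h | h
      · exact top_par hσ hl h (Nat.le_of_ble_eq_true hb)
      · rcases L with _ | ⟨a, L⟩
        · exact top_par hσ hl (by simpa using hr) (Nat.le_of_ble_eq_true hb)
        · refine ih r hc h ?_ (by simp)
          have e : (a :: L).getLast?.getD l = (a :: L).getLast?.getD r := by
            rcases hx : (a :: L).getLast? with _ | b
            · simp at hx
            · rfl
          rw [← e]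
          simpa [List.getLast?_cons_cons] using hr

end Pool.Agent.V8H5.CD
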